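import Pool.Agent.Y904.TO.TT

/-! The limiting antiperiodic function of `S(x)/x`. -/

set_option autoImplicit false

open Finset ArithmeticFunction Filter Topology

namespace Pool.Agent.Y904.TO

open Pool.Agent.H295R3.W

theorem f_two_mul (m : ℕ) (hm : m ≠ 0) : f (2 * m) = -2 * f m := by
  unfold f
  rw [cardFactors_mul two_ne_zero hm, pow_add, cardFactors_apply_prime Nat.prime_two, pow_one]

theorem S_rec (x : ℝ) : S x = T x - 2 * S (x / 2) := by
  unfold S T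
  have hfl : ⌊x / 2⌋₊ = ⌊x⌋₊ / 2 := by
    have := Nat.floor_div_natCast x 2
    simpa using this
  rw [hfl]
  set N := ⌊x⌋₊
  rw [← Finset.sum_filter_add_sum_filter_not (Icc 1 N) (fun n => n % 2 = 1) f]
  have h : ∑ n ∈ (Icc 1 N).filter (fun n => ¬ n % 2 = 1), f n = ∑ m ∈ Icc 1 (N / 2), f (2 * m) := by
    symm
    refine Finset.sum_nbij' (fun m => 2 * m) (fun n => n / 2) ?_ ?_ ?_ ?_ ?_
    · intro m hm
      simp only [mem_Icc, mem_filter] at hm ⊢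
      omega
    · intro n hn
      simp only [mem_Icc, mem_filter] at hn ⊢
      omega
    · intro m hm
      simp
    · intro n hn
      simp only [mem_Icc, mem_filter] at hn ⊢
      omega
    · intro m hm
      rfl
  have h2 : ∑ m ∈ Icc 1 (N / 2), f (2 * m) = -2 * ∑ m ∈ Icc 1 (N / 2), f m := by
    rw [Finset.mul_sum]
    apply Finset.sum_congr rfl
    intro m hm
    rw [mem_Icc] at hm
    exact f_two_mul m (by omega)
  rw [h, h2]
  ring

theorem S_lt_one {x : ℝ} (hx : x < 1) : S x = 0 := by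
  unfold S
  rw [Nat.floor_eq_zero.2 hx]
  simp

/-- the terms of the limiting series -/
noncomputable def tt (u : ℝ) (j : ℕ) : ℝ := (-1) ^ j * (T (2 ^ j * u) / (2 ^ j * u))

/-- the limiting function -/
noncomputable def AA (u : ℝ) : ℝ := ∑' j : ℕ, tt u j

theorem s_eq (u : ℝ) (h1 : 1 ≤ u) (h2 : u < 2) (k : ℕ) :
    S (2 ^ k * u) / (2 ^ k * u) = (-1) ^ k * ∑ j ∈ range (k + 1), tt u j := by
  induction k with
  | zero =>
    have h3 : S (u / 2) = 0 := S_lt_one (by linarith)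
    simp only [pow_zero, one_mul, zero_add, sum_range_one, tt]
    rw [S_rec u, h3]
    simp
  | succ k ih =>
    have hu : u ≠ 0 := by linarith
    have h3 : (2:ℝ) ^ (k + 1) * u / 2 = 2 ^ k * u := by rw [pow_succ]; ring
    rw [S_rec, h3, Finset.sum_range_succ, sub_div]
    have h4 : 2 * S (2 ^ k * u) / (2 ^ (k + 1) * u) = S (2 ^ k * u) / (2 ^ k * u) := by
      rw [pow_succ]
      field_simp
    rw [h4, ih]
    have h5 : tt u (k + 1) = (-1) ^ (k + 1) * (T (2 ^ (k + 1) * u) / (2 ^ (k + 1) * u)) := rfl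
    rw [h5, mul_add, ← mul_assoc, ← mul_pow]
    simp only [mul_neg, mul_one, neg_neg, one_pow, one_mul]
    rw [pow_succ]
    ring

theorem tt_bound (B : ℕ) : ∃ C : ℝ, 0 < C ∧ ∀ u : ℝ, 1 ≤ u → ∀ j : ℕ,
    |tt u j| ≤ C / ((j : ℝ) + 1) ^ B := by
  obtain ⟨C, hC, h⟩ := T_bound B
  refine ⟨C * 3 ^ B, by positivity, fun u hu j => ?_⟩
  have hp : (1:ℝ) ≤ 2 ^ j := one_le_pow₀ (by norm_num)
  have hx : (1:ℝ) ≤ 2 ^ j * u := by nlinarith
  have hx0 : (0:ℝ) < 2 ^ j * u := by linarith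
  have h1 := h _ hx
  set L := Real.log (2 ^ j * u + 1) with hL
  have hL1 : Real.log 2 ≤ L := Real.log_le_log (by norm_num) (by linarith)
  have hL2 : j * Real.log 2 ≤ L := by
    rw [← Real.log_pow]
    apply Real.log_le_log (by positivity)
    nlinarith
  have hl2 := Real.log_two_gt_d9
  have hL0 : 0 < L := by linarith
  have hj : (0:ℝ) ≤ j := Nat.cast_nonneg _
  have h3 : (j:ℝ) + 1 ≤ 3 * L := by nlinarith
  unfold tt
  rw [abs_mul, abs_pow, abs_neg, abs_one, one_pow, one_mul, abs_div, abs_of_pos hx0,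
    div_le_div_iff₀ hx0 (by positivity)]
  rw [le_div_iff₀ (by positivity)] at h1
  calc |T (2 ^ j * u)| * ((j:ℝ) + 1) ^ B ≤ |T (2 ^ j * u)| * (3 * L) ^ B :=
        mul_le_mul_of_nonneg_left (pow_le_pow_left₀ (by linarith) h3 B) (abs_nonneg _)
    _ = 3 ^ B * (|T (2 ^ j * u)| * L ^ B) := by rw [mul_pow]; ring
    _ ≤ 3 ^ B * (C * (2 ^ j * u)) := mul_le_mul_of_nonneg_left h1 (by positivity)
    _ = _ := by ring

theorem summable_sq : Summable (fun j : ℕ => 1 / ((j:ℝ) + 1) ^ 2) := by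
  have h := (summable_nat_add_iff 1).2 (Real.summable_one_div_nat_pow.2 (by norm_num : 1 < 2))
  refine h.congr fun j => ?_
  push_cast
  rfl

theorem tt_summable_abs (u : ℝ) (hu : 1 ≤ u) : Summable (fun j => |tt u j|) := by
  obtain ⟨C, hC, h⟩ := tt_bound 2
  refine Summable.of_nonneg_of_le (fun j => abs_nonneg _) (fun j => ?_) (summable_sq.mul_left C)
  rw [mul_one_div]
  exact h u hu j

theorem tt_summable (u : ℝ) (hu : 1 ≤ u) : Summable (tt u) := (tt_summable_abs u hu).of_abs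

theorem AA_bound : ∃ C : ℝ, ∀ u : ℝ, 1 ≤ u → |AA u| ≤ C := by
  obtain ⟨C, hC, h⟩ := tt_bound 2
  refine ⟨∑' j : ℕ, C * (1 / ((j:ℝ) + 1) ^ 2), fun u hu => ?_⟩
  have h1 : ‖∑' j, tt u j‖ ≤ ∑' j, ‖tt u j‖ := norm_tsum_le_tsum_norm (tt_summable_abs u hu)
  refine h1.trans ?_
  apply Summable.tsum_le_tsum _ (tt_summable_abs u hu) (summable_sq.mul_left C)
  intro j
  rw [mul_one_div]
  exact h u hu j

/-- the rate -/
theorem rate (B : ℕ) : ∃ C : ℝ, 0 < C ∧ ∀ k : ℕ, ∀ u : ℝ, 1 ≤ u → u < 2 →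
    |S (2 ^ k * u) / (2 ^ k * u) - (-1) ^ k * AA u| ≤ C / ((k : ℝ) + 1) ^ B := by
  obtain ⟨C, hC, h⟩ := tt_bound (B + 2)
  have hD0 : 0 ≤ ∑' j : ℕ, 1 / ((j:ℝ) + 1) ^ 2 := tsum_nonneg fun j => by positivity
  refine ⟨C * (∑' j : ℕ, 1 / ((j:ℝ) + 1) ^ 2 + 1), by positivity, fun k u h1 h2 => ?_⟩
  rw [s_eq u h1 h2 k, ← mul_sub, abs_mul, abs_pow, abs_neg, abs_one, one_pow, one_mul]
  have hs := tt_summable u h1
  have e1 : ∑ j ∈ range (k + 1), tt u j - AA u = -∑' j : ℕ, tt u (j + (k + 1)) := by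
    have := hs.sum_add_tsum_nat_add (k + 1)
    unfold AA
    linarith
  rw [e1, abs_neg]
  have hsa : Summable (fun j : ℕ => |tt u (j + (k + 1))|) :=
    (summable_nat_add_iff (k + 1)).2 (tt_summable_abs u h1)
  have h3 : ‖∑' j : ℕ, tt u (j + (k + 1))‖ ≤ ∑' j : ℕ, ‖tt u (j + (k + 1))‖ :=
    norm_tsum_le_tsum_norm hsa
  refine h3.trans ?_
  have hsr : Summable (fun j : ℕ => C / ((k:ℝ) + 1) ^ B * (1 / ((j:ℝ) + 1) ^ 2)) :=
    summable_sq.mul_left _
  calc ∑' j : ℕ, ‖tt u (j + (k + 1))‖ ≤ ∑' j : ℕ, C / ((k:ℝ) + 1) ^ B * (1 / ((j:ℝ) + 1) ^ 2) := by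
        apply Summable.tsum_le_tsum _ hsa hsr
        intro j
        refine (h u h1 (j + (k + 1))).trans ?_
        rw [div_mul_div_comm, mul_one]
        apply div_le_div_of_nonneg_left hC.le (by positivity)
        push_cast
        rw [pow_add]
        have hj : (0:ℝ) ≤ j := Nat.cast_nonneg _
        have hk : (0:ℝ) ≤ k := Nat.cast_nonneg _
        apply mul_le_mul
        · exact pow_le_pow_left₀ (by positivity) (by linarith) B
        · exact pow_le_pow_left₀ (by positivity) (by linarith) 2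
        · positivity
        · positivity
    _ = C / ((k:ℝ) + 1) ^ B * ∑' j : ℕ, 1 / ((j:ℝ) + 1) ^ 2 := by rw [tsum_mul_left]
    _ ≤ C / ((k:ℝ) + 1) ^ B * (∑' j : ℕ, 1 / ((j:ℝ) + 1) ^ 2 + 1) := by
        apply mul_le_mul_of_nonneg_left (by linarith) (by positivity)
    _ = _ := by ring

theorem near (x : ℝ) (hx : 1 ≤ x) : ∃ k : ℕ, ∃ u : ℝ, 1 ≤ u ∧ u < 2 ∧ x = 2 ^ k * u := by
  obtain ⟨k, h1, h2⟩ := exists_nat_pow_near hx (by norm_num : (1:ℝ) < 2)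
  have hp : (0:ℝ) < 2 ^ k := by positivity
  refine ⟨k, x / 2 ^ k, ?_, ?_, ?_⟩
  · rwa [le_div_iff₀ hp, one_mul]
  · rw [div_lt_iff₀ hp, mul_comm, ← pow_succ]; exact h2
  · field_simp

/-- `S(x) = O(x)` -/
theorem S_bound : ∃ C : ℝ, 0 < C ∧ ∀ x : ℝ, 1 ≤ x → |S x| ≤ C * x := by
  obtain ⟨C, hC, h⟩ := rate 0
  obtain ⟨D, hD⟩ := AA_bound
  have hD0 : 0 ≤ D := (abs_nonneg _).trans (hD 1 le_rfl)
  refine ⟨C + D, by positivity, fun x hx => ?_⟩
  obtain ⟨k, u, h1, h2, rfl⟩ := near x hx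
  have hx0 : (0:ℝ) < 2 ^ k * u := by linarith
  have h3 := h k u h1 h2
  rw [pow_zero, div_one] at h3
  have h4 : |(-1:ℝ) ^ k * AA u| ≤ D := by
    rw [abs_mul, abs_pow, abs_neg, abs_one, one_pow, one_mul]
    exact hD u h1
  have h5 : |S (2 ^ k * u) / (2 ^ k * u)| ≤ C + D := by
    have := abs_sub_abs_le_abs_sub (S (2 ^ k * u) / (2 ^ k * u)) ((-1:ℝ) ^ k * AA u)
    linarith
  rwa [abs_div, abs_of_pos hx0, div_le_iff₀ hx0] at h5

/-- the supremum of the limiting function -/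
noncomputable def sig : ℝ := ⨆ u : Set.Ico (1:ℝ) 2, |AA u|

theorem bdd : BddAbove (Set.range fun u : Set.Ico (1:ℝ) 2 => |AA u|) := by
  obtain ⟨D, hD⟩ := AA_bound
  refine ⟨D, ?_⟩
  rintro _ ⟨u, rfl⟩
  exact hD u u.2.1

theorem le_sig {u : ℝ} (h1 : 1 ≤ u) (h2 : u < 2) : |AA u| ≤ sig :=
  le_ciSup bdd ⟨u, h1, h2⟩

theorem eventually_le (c : ℝ) (hc : sig < c) : ∀ᶠ x : ℝ in atTop, |S x| / x ≤ c := by
  obtain ⟨C, hC, h⟩ := rate 1
  obtain ⟨K, hK⟩ := exists_nat_gt (C / (c - sig))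
  filter_upwards [eventually_ge_atTop ((2:ℝ) ^ K)] with x hx
  have hx1 : (1:ℝ) ≤ x := (one_le_pow₀ (by norm_num)).trans hx
  obtain ⟨k, u, h1, h2, rfl⟩ := near x hx1
  have hx0 : (0:ℝ) < 2 ^ k * u := by linarith
  have hkK : K ≤ k := by
    by_contra hcon
    push Not at hcon
    have h3 : (2:ℝ) ^ (k + 1) ≤ 2 ^ K := pow_le_pow_right₀ (by norm_num) hcon
    have h4 : (2:ℝ) ^ k * u < 2 ^ (k + 1) := by
      rw [pow_succ]
      exact mul_lt_mul_of_pos_left h2 (by positivity)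
    linarith
  have h3 := h k u h1 h2
  rw [pow_one] at h3
  have h4 : |(-1:ℝ) ^ k * AA u| ≤ sig := by
    rw [abs_mul, abs_pow, abs_neg, abs_one, one_pow, one_mul]
    exact le_sig h1 h2
  have hcs : 0 < c - sig := by linarith
  have h6 : C / ((k:ℝ) + 1) ≤ c - sig := by
    rw [div_lt_iff₀ hcs] at hK
    rw [div_le_iff₀ (by positivity)]
    have : (K:ℝ) ≤ k := by exact_mod_cast hkK
    nlinarith
  have h5 : |S (2 ^ k * u) / (2 ^ k * u)| ≤ c := by
    have := abs_sub_abs_le_abs_sub (S (2 ^ k * u) / (2 ^ k * u)) ((-1:ℝ) ^ k * AA u)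
    linarith
  rwa [abs_div, abs_of_pos hx0] at h5

theorem tendsto_dy {u : ℝ} (h1 : 1 ≤ u) (h2 : u < 2) (e : ℕ) :
    Tendsto (fun k : ℕ => S (2 ^ (2 * k + e) * u) / (2 ^ (2 * k + e) * u)) atTop
      (𝓝 ((-1) ^ e * AA u)) := by
  obtain ⟨C, hC, h⟩ := rate 1
  rw [tendsto_iff_norm_sub_tendsto_zero]
  have h0 : Tendsto (fun k : ℕ => C / ((k:ℝ) + 1)) atTop (𝓝 0) := by
    apply Tendsto.const_div_atTop
    exact tendsto_atTop_add_const_right _ _ tendsto_natCast_atTop_atTop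
  refine squeeze_zero (fun k => norm_nonneg _) (fun k => ?_) h0
  have h3 := h (2 * k + e) u h1 h2
  rw [pow_one, pow_add (-1:ℝ) (2 * k) e, pow_mul, neg_one_sq, one_pow, one_mul] at h3
  rw [Real.norm_eq_abs]
  refine h3.trans ?_
  apply div_le_div_of_nonneg_left hC.le (by positivity)
  push_cast
  have hk : (0:ℝ) ≤ k := Nat.cast_nonneg _
  have he : (0:ℝ) ≤ e := Nat.cast_nonneg _
  linarith

theorem dy_atTop {u : ℝ} (h1 : 1 ≤ u) (e : ℕ) :
    Tendsto (fun k : ℕ => (2:ℝ) ^ (2 * k + e) * u) atTop atTop := by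
  apply tendsto_atTop_mono (f := fun k : ℕ => (k:ℝ)) _ tendsto_natCast_atTop_atTop
  intro k
  have h3 : (k:ℝ) ≤ 2 ^ k := by
    have : k ≤ 2 ^ k := Nat.lt_two_pow_self.le
    exact_mod_cast this
  have h4 : (2:ℝ) ^ k ≤ 2 ^ (2 * k + e) := pow_le_pow_right₀ (by norm_num) (by omega)
  have h5 : (0:ℝ) < 2 ^ (2 * k + e) := by positivity
  nlinarith

end Pool.Agent.Y904.TO
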