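import Pool.Agent.H705R2.MLogF
import Pool.Agent.H295R3.W.Stmts

/-! Every power of the logarithm is saved in the sums of `μ * μ` (task `TaskM` of `H295R3.W`). -/

set_option autoImplicit false

open Finset ArithmeticFunction Filter Topology

namespace Pool.Agent.Y904.TO

open Pool.Agent.H295R3.W

/-- sums of the Moebius function -/
noncomputable def Mn (N : ℕ) : ℝ := ∑ n ∈ Ioc 0 N, ((moebius n : ℤ) : ℝ)

theorem abs_mu (n : ℕ) : |((moebius n : ℤ) : ℝ)| ≤ 1 := by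
  have h : |moebius n| ≤ 1 := abs_moebius_le_one
  exact_mod_cast h

theorem Mn_le_self (N : ℕ) : |Mn N| ≤ N := by
  unfold Mn
  refine (abs_sum_le_sum_abs _ _).trans ?_
  calc _ ≤ ∑ n ∈ Ioc 0 N, (1:ℝ) := sum_le_sum fun n _ => abs_mu n
    _ = N := by simp

theorem Mn_bound (W : ℕ) : ∃ C : ℝ, 0 < C ∧ ∀ N : ℕ, 1 ≤ N →
    |Mn N| ≤ C * N / (Real.log ((N : ℝ) + 1)) ^ W := by
  obtain ⟨N₀, h⟩ := Pool.Agent.H705R2.MSW.swMu W 0
  have hl0 : 0 ≤ Real.log ((N₀ : ℝ) + 1) := Real.log_nonneg (by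
    have : (0:ℝ) ≤ N₀ := Nat.cast_nonneg _
    linarith)
  refine ⟨2 + (Real.log ((N₀ : ℝ) + 1)) ^ W, by positivity, fun N hN => ?_⟩
  have hN1 : (1:ℝ) ≤ N := by exact_mod_cast hN
  have hL : 0 < Real.log ((N : ℝ) + 1) := Real.log_pos (by linarith)
  rw [le_div_iff₀ (pow_pos hL W)]
  by_cases hc : N₀ ≤ N + 1
  · have h1 := h (N + 1) hc 1 0 le_rfl (by simp)
    have h2 : ∑ n ∈ (Finset.range (N + 1)).filter (fun n => n % 1 = 0),
        ((ArithmeticFunction.moebius n : ℤ) : ℝ) = Mn N := by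
      have e1 : (Finset.range (N + 1)).filter (fun n => n % 1 = 0) = Finset.range (N + 1) := by
        apply Finset.filter_true_of_mem
        intro x _
        exact Nat.mod_one x
      rw [e1, Finset.sum_range_succ', Mn]
      simp only [ArithmeticFunction.map_zero, Int.cast_zero, add_zero]
      rw [Finset.range_eq_Ico, Finset.sum_Ico_add' (fun n => ((moebius n : ℤ) : ℝ)) 0 N 1]
      apply Finset.sum_congr _ fun _ _ => rfl
      ext x
      simp only [Finset.mem_Ico, Finset.mem_Ioc]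
      omega
    rw [h2] at h1
    have h3 : ((N + 1 : ℕ) : ℝ) = (N : ℝ) + 1 := by push_cast; ring
    rw [h3, le_div_iff₀ (pow_pos hL W)] at h1
    have h4 : 0 ≤ (Real.log ((N₀ : ℝ) + 1)) ^ W := by positivity
    nlinarith
  · have h1 := Mn_le_self N
    have h2 : Real.log ((N : ℝ) + 1) ≤ Real.log ((N₀ : ℝ) + 1) := by
      apply Real.log_le_log (by linarith)
      have : (N : ℝ) ≤ N₀ := by exact_mod_cast (by omega : N ≤ N₀)
      linarith
    have h3 : Real.log ((N : ℝ) + 1) ^ W ≤ Real.log ((N₀ : ℝ) + 1) ^ W := pow_le_pow_left₀ hL.le h2 W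
    calc |Mn N| * Real.log ((N : ℝ) + 1) ^ W ≤ N * Real.log ((N₀ : ℝ) + 1) ^ W :=
          mul_le_mul h1 h3 (by positivity) (by linarith)
      _ ≤ _ := by nlinarith [show (0:ℝ) ≤ Real.log ((N₀ : ℝ) + 1) ^ W by positivity]

theorem hyper (N : ℕ) : ∑ n ∈ Ioc 0 N, mu2 n =
    ∑ a ∈ Ioc 0 (Nat.sqrt N), ((moebius a : ℤ) : ℝ) * Mn (N / a) +
      ∑ b ∈ Ioc 0 (Nat.sqrt N), ((moebius b : ℤ) : ℝ) * (Mn (N / b) - Mn (Nat.sqrt N)) := by
  set R := Nat.sqrt N with hR
  have hRN : R ≤ N := Nat.sqrt_le_self N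
  have hRR : R * R ≤ N := Nat.sqrt_le N
  have hlt : N < (R + 1) * (R + 1) := Nat.lt_succ_sqrt N
  unfold mu2
  rw [sum_Ioc_mul_eq_sum_sum]
  have e0 : ∀ n : ℕ, (((moebius : ArithmeticFunction ℤ) : ArithmeticFunction ℝ)) n = ((moebius n : ℤ) : ℝ) :=
    fun n => by simp [intCoe_apply]
  simp only [e0]
  rw [← Finset.sum_Ioc_consecutive _ (Nat.zero_le R) hRN]
  congr 1
  simp_rw [Finset.mul_sum]
  rw [Finset.sum_comm' (t' := Ioc 0 R) (s' := fun b => Ioc R (N / b))]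
  · apply Finset.sum_congr rfl
    intro b hb
    rw [mem_Ioc] at hb
    have h1 : R ≤ N / b := by
      rw [Nat.le_div_iff_mul_le hb.1]
      exact (Nat.mul_le_mul_left R hb.2).trans hRR
    have h2 : Mn (N / b) - Mn R = ∑ a ∈ Ioc R (N / b), ((moebius a : ℤ) : ℝ) := by
      unfold Mn
      rw [← Finset.sum_Ioc_consecutive _ (Nat.zero_le R) h1]
      ring
    rw [h2, Finset.mul_sum]
    apply Finset.sum_congr rfl
    intro a _
    ring
  · intro a b
    simp only [mem_Ioc]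
    constructor
    · rintro ⟨⟨h1, h2⟩, h3, h4⟩
      have ha : 0 < a := by omega
      rw [Nat.le_div_iff_mul_le ha] at h4
      refine ⟨⟨h1, ?_⟩, h3, ?_⟩
      · rw [Nat.le_div_iff_mul_le h3]
        calc a * b = b * a := Nat.mul_comm _ _
          _ ≤ N := h4
      · by_contra hc
        push Not at hc
        have : (R + 1) * (R + 1) ≤ b * a := Nat.mul_le_mul hc h1
        omega
    · rintro ⟨⟨h1, h2⟩, h3, h4⟩
      have ha : 0 < a := by omega
      rw [Nat.le_div_iff_mul_le h3] at h2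
      refine ⟨⟨h1, ?_⟩, h3, ?_⟩
      · exact le_trans (Nat.le_mul_of_pos_right a h3) h2
      · rw [Nat.le_div_iff_mul_le ha]
        calc b * a = a * b := Nat.mul_comm _ _
          _ ≤ N := h2

theorem harm (R : ℕ) (hR : 1 ≤ R) : ∑ b ∈ Ioc 0 R, (1:ℝ) / b ≤ 3 * Real.log ((R:ℝ) + 1) := by
  have h1 : ∑ b ∈ Ioc 0 R, (1:ℝ) / b = ((harmonic R : ℚ) : ℝ) := by
    rw [harmonic_eq_sum_Icc]
    push_cast
    apply Finset.sum_congr
    · ext x; simp only [mem_Ioc, mem_Icc]; omega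
    · intro x _; rw [one_div]
  rw [h1]
  have h2 := harmonic_le_one_add_log R
  have hR1 : (1:ℝ) ≤ R := by exact_mod_cast hR
  have h3 : Real.log R ≤ Real.log ((R:ℝ) + 1) := Real.log_le_log (by linarith) (by linarith)
  have h4 : Real.log 2 ≤ Real.log ((R:ℝ) + 1) := Real.log_le_log (by norm_num) (by linarith)
  have h5 := Real.log_two_gt_d9
  linarith

theorem taskM_nat (V : ℕ) : ∃ C : ℝ, 0 < C ∧ ∀ N : ℕ, 1 ≤ N →
    |∑ n ∈ Ioc 0 N, mu2 n| ≤ C * N / (Real.log ((N : ℝ) + 1)) ^ V := by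
  obtain ⟨C, hC, hM⟩ := Mn_bound (V + 1)
  refine ⟨9 * C * 2 ^ V, by positivity, fun N hN => ?_⟩
  set R := Nat.sqrt N with hR
  have hR1 : 1 ≤ R := by
    rw [hR, Nat.le_sqrt]; omega
  have hRR : R * R ≤ N := Nat.sqrt_le N
  have hlt : N < (R + 1) * (R + 1) := Nat.lt_succ_sqrt N
  have hR1' : (1:ℝ) ≤ R := by exact_mod_cast hR1
  have hN1' : (1:ℝ) ≤ N := by exact_mod_cast hN
  set L := Real.log ((R:ℝ) + 1) with hL
  have hL0 : 0 < L := Real.log_pos (by linarith)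
  have key : ∀ a ∈ Ioc 0 R, |Mn (N / a)| ≤ C * N / L ^ (V + 1) * (1 / a) ∧
      |Mn R| ≤ C * N / L ^ (V + 1) * (1 / a) := by
    intro a ha
    rw [mem_Ioc] at ha
    have ha0 : (0:ℝ) < a := by exact_mod_cast ha.1
    have h1 : R ≤ N / a := by
      rw [Nat.le_div_iff_mul_le ha.1]
      exact (Nat.mul_le_mul_left R ha.2).trans hRR
    have h1' : (R:ℝ) ≤ ((N / a : ℕ) : ℝ) := by exact_mod_cast h1
    have h2 : ((N / a : ℕ) : ℝ) ≤ (N:ℝ) / a := Nat.cast_div_le
    have h3 : L ≤ Real.log (((N / a : ℕ) : ℝ) + 1) := Real.log_le_log (by linarith) (by linarith)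
    constructor
    · refine (hM (N / a) (hR1.trans h1)).trans ?_
      calc C * ((N / a : ℕ) : ℝ) / Real.log (((N / a : ℕ) : ℝ) + 1) ^ (V + 1)
          ≤ C * ((N:ℝ) / a) / L ^ (V + 1) := by
            apply div_le_div₀ (by positivity) (mul_le_mul_of_nonneg_left h2 hC.le) (by positivity)
            exact pow_le_pow_left₀ hL0.le h3 _
        _ = _ := by field_simp
    · refine (hM R hR1).trans ?_
      calc C * (R : ℝ) / Real.log ((R : ℝ) + 1) ^ (V + 1)
          ≤ C * ((N:ℝ) / a) / L ^ (V + 1) := by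
            apply div_le_div_of_nonneg_right (mul_le_mul_of_nonneg_left (h1'.trans h2) hC.le)
            positivity
        _ = _ := by field_simp
  have b1 : |∑ a ∈ Ioc 0 R, ((moebius a : ℤ) : ℝ) * Mn (N / a)| ≤
      ∑ a ∈ Ioc 0 R, C * N / L ^ (V + 1) * (1 / a) := by
    refine (abs_sum_le_sum_abs _ _).trans (sum_le_sum fun a ha => ?_)
    rw [abs_mul]
    calc _ ≤ 1 * |Mn (N / a)| := mul_le_mul_of_nonneg_right (abs_mu a) (abs_nonneg _)
      _ ≤ _ := by rw [one_mul]; exact (key a ha).1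
  have b2 : |∑ b ∈ Ioc 0 R, ((moebius b : ℤ) : ℝ) * (Mn (N / b) - Mn R)| ≤
      ∑ a ∈ Ioc 0 R, 2 * (C * N / L ^ (V + 1) * (1 / a)) := by
    refine (abs_sum_le_sum_abs _ _).trans (sum_le_sum fun a ha => ?_)
    rw [abs_mul]
    calc _ ≤ 1 * |Mn (N / a) - Mn R| := mul_le_mul_of_nonneg_right (abs_mu a) (abs_nonneg _)
      _ ≤ |Mn (N / a)| + |Mn R| := by rw [one_mul]; exact abs_sub _ _
      _ ≤ _ := by linarith [(key a ha).1, (key a ha).2]
  have hh := harm R hR1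
  have hlog : Real.log ((N:ℝ) + 1) ≤ 2 * L := by
    rw [hL, show (2:ℝ) * Real.log ((R:ℝ) + 1) = Real.log (((R:ℝ) + 1) ^ 2) by
      rw [Real.log_pow]; norm_num]
    apply Real.log_le_log (by linarith)
    have : ((N + 1 : ℕ) : ℝ) ≤ (((R + 1) * (R + 1) : ℕ) : ℝ) := by exact_mod_cast hlt
    push_cast at this
    nlinarith
  have hlogN : 0 < Real.log ((N:ℝ) + 1) := Real.log_pos (by linarith)
  rw [hyper N, ← hR]
  calc |∑ a ∈ Ioc 0 R, ((moebius a : ℤ) : ℝ) * Mn (N / a) +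
        ∑ b ∈ Ioc 0 R, ((moebius b : ℤ) : ℝ) * (Mn (N / b) - Mn R)|
      ≤ ∑ a ∈ Ioc 0 R, C * N / L ^ (V + 1) * (1 / a) +
        ∑ a ∈ Ioc 0 R, 2 * (C * N / L ^ (V + 1) * (1 / a)) := (abs_add_le _ _).trans (add_le_add b1 b2)
    _ = 3 * (C * N / L ^ (V + 1)) * ∑ a ∈ Ioc 0 R, (1:ℝ) / a := by
        rw [← Finset.mul_sum, ← Finset.mul_sum, ← Finset.mul_sum]; ring
    _ ≤ 3 * (C * N / L ^ (V + 1)) * (3 * L) := mul_le_mul_of_nonneg_left hh (by positivity)
    _ = 9 * C * N / L ^ V := by field_simp; ring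
    _ ≤ 9 * C * 2 ^ V * N / (Real.log ((N : ℝ) + 1)) ^ V := by
        rw [div_le_div_iff₀ (by positivity) (by positivity)]
        have : Real.log ((N:ℝ) + 1) ^ V ≤ 2 ^ V * L ^ V := by
          rw [← mul_pow]
          exact pow_le_pow_left₀ hlogN.le hlog V
        calc 9 * C * N * Real.log ((N:ℝ) + 1) ^ V ≤ 9 * C * N * (2 ^ V * L ^ V) :=
              mul_le_mul_of_nonneg_left this (by positivity)
          _ = _ := by ring

theorem taskM : TaskM := by
  intro V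
  obtain ⟨C, hC, h⟩ := taskM_nat V
  refine ⟨C * 2 ^ V, by positivity, fun y hy => ?_⟩
  set N := ⌊y⌋₊ with hN
  have hN1 : 1 ≤ N := Nat.le_floor (by simpa using hy)
  have hN1' : (1:ℝ) ≤ N := by exact_mod_cast hN1
  have hNy : (N:ℝ) ≤ y := Nat.floor_le (by linarith)
  have hyN : y < N + 1 := Nat.lt_floor_add_one y
  have e : Icc 1 N = Ioc 0 N := by ext x; simp only [mem_Icc, mem_Ioc]; omega
  rw [e]
  have hlN : 0 < Real.log ((N:ℝ) + 1) := Real.log_pos (by linarith)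
  have hly : 0 < Real.log (y + 1) := Real.log_pos (by linarith)
  have hlog : Real.log (y + 1) ≤ 2 * Real.log ((N:ℝ) + 1) := by
    rw [show (2:ℝ) * Real.log ((N:ℝ) + 1) = Real.log (((N:ℝ) + 1) ^ 2) by
      rw [Real.log_pow]; norm_num]
    apply Real.log_le_log (by linarith)
    nlinarith
  refine (h N hN1).trans ?_
  rw [div_le_div_iff₀ (by positivity) (by positivity)]
  have h1 : Real.log (y + 1) ^ V ≤ 2 ^ V * Real.log ((N:ℝ) + 1) ^ V := by
    rw [← mul_pow]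
    exact pow_le_pow_left₀ hly.le hlog V
  calc C * N * Real.log (y + 1) ^ V ≤ C * y * (2 ^ V * Real.log ((N:ℝ) + 1) ^ V) :=
        mul_le_mul (mul_le_mul_of_nonneg_left hNy hC.le) h1 (by positivity) (by positivity)
    _ = _ := by ring

end Pool.Agent.Y904.TO
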