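import Pool.Agent.Y904.TO.TM
import Pool.Agent.H630R3.W.G

/-! The sums over odd numbers: every power of the logarithm is saved. -/

set_option autoImplicit false

open Finset ArithmeticFunction Filter Topology

namespace Pool.Agent.Y904.TO

open Pool.Agent.H295R3.W

theorem g_mul_mu2 : g * mu2 = fo := by
  have h : ((moebius : ArithmeticFunction ℤ) : ArithmeticFunction ℝ) *
      ((zeta : ArithmeticFunction ℕ) : ArithmeticFunction ℝ) = 1 := coe_moebius_mul_coe_zeta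
  unfold g mu2
  calc _ = (((moebius : ArithmeticFunction ℤ) : ArithmeticFunction ℝ) *
      ((zeta : ArithmeticFunction ℕ) : ArithmeticFunction ℝ)) *
      (((moebius : ArithmeticFunction ℤ) : ArithmeticFunction ℝ) *
      ((zeta : ArithmeticFunction ℕ) : ArithmeticFunction ℝ)) * fo := by ring
    _ = fo := by rw [h]; simp

theorem T_eq (u : ℝ) : T u = ∑ d ∈ Ioc 0 ⌊u⌋₊, g d * ∑ m ∈ Ioc 0 (⌊u⌋₊ / d), mu2 m := by
  rw [← sum_Ioc_mul_eq_sum_sum, g_mul_mu2]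
  unfold T
  rw [Finset.sum_filter]
  apply Finset.sum_congr
  · ext x; simp only [mem_Icc, mem_Ioc]; omega
  · intro n _
    rfl

/-- a power of the logarithm is at most a constant times `d^(1/4)` -/
theorem log_pow_le (V : ℕ) : ∃ K : ℝ, 0 < K ∧ ∀ d : ℕ, 1 ≤ d →
    (1 + 2 * Real.log d) ^ V ≤ K * (d : ℝ) ^ (1 / 4 : ℝ) := by
  set ε : ℝ := 1 / (4 * ((V : ℝ) + 1)) with hε
  have hε0 : 0 < ε := by positivity
  refine ⟨(1 + 2 / ε) ^ V, by positivity, fun d hd => ?_⟩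
  have hd1 : (1:ℝ) ≤ d := by exact_mod_cast hd
  have h1 : Real.log d ≤ (d:ℝ) ^ ε / ε := Real.log_le_rpow_div (by linarith) hε0
  have h2 : (1:ℝ) ≤ (d:ℝ) ^ ε := Real.one_le_rpow hd1 hε0.le
  have h0 : 0 ≤ Real.log d := Real.log_nonneg hd1
  have h3 : 1 + 2 * Real.log d ≤ (1 + 2 / ε) * (d:ℝ) ^ ε := by
    have : (1 + 2 / ε) * (d:ℝ) ^ ε = (d:ℝ) ^ ε + 2 * ((d:ℝ) ^ ε / ε) := by ring
    rw [this]; linarith
  calc (1 + 2 * Real.log d) ^ V ≤ ((1 + 2 / ε) * (d:ℝ) ^ ε) ^ V :=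
        pow_le_pow_left₀ (by linarith) h3 V
    _ = (1 + 2 / ε) ^ V * ((d:ℝ) ^ ε) ^ V := mul_pow _ _ _
    _ ≤ (1 + 2 / ε) ^ V * (d : ℝ) ^ (1 / 4 : ℝ) := by
        apply mul_le_mul_of_nonneg_left _ (by positivity)
        rw [← Real.rpow_natCast, ← Real.rpow_mul (by linarith)]
        apply Real.rpow_le_rpow_of_exponent_le hd1
        rw [hε, div_mul_eq_mul_div, one_mul, div_le_div_iff₀ (by positivity) (by norm_num)]
        linarith

theorem T_bound (V : ℕ) : ∃ C : ℝ, 0 < C ∧ ∀ u : ℝ, 1 ≤ u →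
    |T u| ≤ C * u / (Real.log (u + 1)) ^ V := by
  obtain ⟨C, hC, hM⟩ := taskM_nat V
  obtain ⟨K, hK, hlp⟩ := log_pow_le V
  have hG : Summable fun n : ℕ => |g n| / (n : ℝ) ^ (3 / 4 : ℝ) := Pool.Agent.H630R3.W.taskG
  set G := ∑' n : ℕ, |g n| / (n : ℝ) ^ (3 / 4 : ℝ) with hGd
  have hG0 : 0 ≤ G := tsum_nonneg fun n => by positivity
  refine ⟨C * K * 2 ^ V * (G + 1), by positivity, fun u hu => ?_⟩
  set N := ⌊u⌋₊ with hN
  have hN1 : 1 ≤ N := Nat.le_floor (by simpa using hu)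
  have hN1' : (1:ℝ) ≤ N := by exact_mod_cast hN1
  have hNy : (N:ℝ) ≤ u := Nat.floor_le (by linarith)
  have hyN : u < N + 1 := Nat.lt_floor_add_one u
  have hlN : 0 < Real.log ((N:ℝ) + 1) := Real.log_pos (by linarith)
  have hly : 0 < Real.log (u + 1) := Real.log_pos (by linarith)
  have hlog : Real.log (u + 1) ≤ 2 * Real.log ((N:ℝ) + 1) := by
    rw [show (2:ℝ) * Real.log ((N:ℝ) + 1) = Real.log (((N:ℝ) + 1) ^ 2) by
      rw [Real.log_pow]; norm_num]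
    apply Real.log_le_log (by linarith)
    nlinarith
  have hterm : ∀ d ∈ Ioc 0 N, |g d * ∑ m ∈ Ioc 0 (N / d), mu2 m| ≤
      C * K * u / (Real.log ((N:ℝ) + 1)) ^ V * (|g d| / (d : ℝ) ^ (3 / 4 : ℝ)) := by
    intro d hd
    rw [mem_Ioc] at hd
    have hd0 : (0:ℝ) < d := by exact_mod_cast hd.1
    have hd1 : (1:ℝ) ≤ d := by exact_mod_cast hd.1
    have h1 : 1 ≤ N / d := (Nat.one_le_div_iff hd.1).2 hd.2
    have h1' : (1:ℝ) ≤ ((N / d : ℕ) : ℝ) := by exact_mod_cast h1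
    have h2 : ((N / d : ℕ) : ℝ) ≤ (N:ℝ) / d := Nat.cast_div_le
    have h2' : ((N / d : ℕ) : ℝ) ≤ u / d := h2.trans (div_le_div_of_nonneg_right hNy hd0.le)
    set ℓ := Real.log (((N / d : ℕ) : ℝ) + 1) with hℓ
    have hℓ2 : Real.log 2 ≤ ℓ := Real.log_le_log (by norm_num) (by linarith)
    have hl2 := Real.log_two_gt_d9
    have hℓ0 : 0 < ℓ := by linarith
    have hld : 0 ≤ Real.log d := Real.log_nonneg hd1
    have h3 : Real.log ((N:ℝ) + 1) ≤ ℓ * (1 + 2 * Real.log d) := by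
      have e1 : ((N + 1 : ℕ) : ℝ) ≤ ((d * (N / d + 1) : ℕ) : ℝ) := by
        exact_mod_cast Nat.lt_mul_div_succ N hd.1
      push_cast at e1
      have e2 : Real.log ((N:ℝ) + 1) ≤ Real.log ((d:ℝ) * (((N / d : ℕ) : ℝ) + 1)) := by
        apply Real.log_le_log (by linarith)
        push_cast
        exact e1
      rw [Real.log_mul (by linarith) (by linarith), ← hℓ] at e2
      nlinarith
    have h4 : Real.log ((N:ℝ) + 1) ^ V ≤ ℓ ^ V * (K * (d : ℝ) ^ (1 / 4 : ℝ)) := by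
      calc _ ≤ (ℓ * (1 + 2 * Real.log d)) ^ V := pow_le_pow_left₀ hlN.le h3 V
        _ = ℓ ^ V * (1 + 2 * Real.log d) ^ V := mul_pow _ _ _
        _ ≤ _ := mul_le_mul_of_nonneg_left (hlp d hd.1) (by positivity)
    have h5 := hM (N / d) h1
    rw [← hℓ] at h5
    rw [abs_mul]
    have h6 : (d:ℝ) ^ (3 / 4 : ℝ) * (d : ℝ) ^ (1 / 4 : ℝ) = d := by
      rw [← Real.rpow_add hd0]; norm_num
    have hp3 : 0 < (d:ℝ) ^ (3 / 4 : ℝ) := by positivity
    have hp1 : 0 < (d:ℝ) ^ (1 / 4 : ℝ) := by positivity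
    have h7 : C * ((N / d : ℕ) : ℝ) / ℓ ^ V ≤
        C * K * u / (Real.log ((N:ℝ) + 1)) ^ V / (d : ℝ) ^ (3 / 4 : ℝ) := by
      rw [div_div, div_le_div_iff₀ (by positivity) (by positivity)]
      calc C * ((N / d : ℕ) : ℝ) * (Real.log ((N:ℝ) + 1) ^ V * (d : ℝ) ^ (3 / 4 : ℝ))
          ≤ C * (u / d) * ((ℓ ^ V * (K * (d : ℝ) ^ (1 / 4 : ℝ))) * (d : ℝ) ^ (3 / 4 : ℝ)) := by
            apply mul_le_mul (mul_le_mul_of_nonneg_left h2' hC.le) _ (by positivity) (by positivity)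
            exact mul_le_mul_of_nonneg_right h4 hp3.le
        _ = C * K * u * ℓ ^ V * (((d:ℝ) ^ (3 / 4 : ℝ) * (d : ℝ) ^ (1 / 4 : ℝ)) / d) := by ring
        _ = C * K * u * ℓ ^ V := by rw [h6, div_self hd0.ne', mul_one]
    calc |g d| * |∑ m ∈ Ioc 0 (N / d), mu2 m|
        ≤ |g d| * (C * K * u / (Real.log ((N:ℝ) + 1)) ^ V / (d : ℝ) ^ (3 / 4 : ℝ)) :=
          mul_le_mul_of_nonneg_left (h5.trans h7) (abs_nonneg _)
      _ = _ := by ring
  rw [T_eq u, ← hN]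
  calc |∑ d ∈ Ioc 0 N, g d * ∑ m ∈ Ioc 0 (N / d), mu2 m|
      ≤ ∑ d ∈ Ioc 0 N, C * K * u / (Real.log ((N:ℝ) + 1)) ^ V * (|g d| / (d : ℝ) ^ (3 / 4 : ℝ)) :=
        (abs_sum_le_sum_abs _ _).trans (sum_le_sum hterm)
    _ = C * K * u / (Real.log ((N:ℝ) + 1)) ^ V * ∑ d ∈ Ioc 0 N, (|g d| / (d : ℝ) ^ (3 / 4 : ℝ)) := by
        rw [Finset.mul_sum]
    _ ≤ C * K * u / (Real.log ((N:ℝ) + 1)) ^ V * (G + 1) := by
        apply mul_le_mul_of_nonneg_left _ (by positivity)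
        have := hG.sum_le_tsum (Ioc 0 N) (fun n _ => by positivity)
        linarith
    _ ≤ _ := by
        rw [div_mul_eq_mul_div, div_le_div_iff₀ (by positivity) (by positivity)]
        have h1 : Real.log (u + 1) ^ V ≤ 2 ^ V * Real.log ((N:ℝ) + 1) ^ V := by
          rw [← mul_pow]
          exact pow_le_pow_left₀ hly.le hlog V
        calc C * K * u * (G + 1) * Real.log (u + 1) ^ V ≤
              C * K * u * (G + 1) * (2 ^ V * Real.log ((N:ℝ) + 1) ^ V) :=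
              mul_le_mul_of_nonneg_left h1 (by positivity)
          _ = _ := by ring

end Pool.Agent.Y904.TO
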